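import Pool.Agent.H98R2.RR.Tower

set_option autoImplicit false
open Filter Topology
open scoped ComplexOrder InnerProductSpace

namespace Pool.Agent.H98R2.RR
open Pool.H711R2

section defs
variable {H : Type} [NormedAddCommGroup H] [InnerProductSpace ℂ H] [CompleteSpace H]
variable {M : VonNeumannAlgebra H} {τ : (H →L[ℂ] H) →ₗ[ℂ] ℂ}

/-- the four nilpotents of the window -/
noncomputable def Tower.xx (T : Tower M τ) (k : ℕ) (j : ℕ) : H →L[ℂ] H :=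
  if j = 0 then T.mm k 0 1 else if j = 1 then T.mm k 1 0
  else if j = 2 then T.mm k 0 1 * T.b k else T.mm k 1 0 * T.b' k

/-- the wrap lengths -/
def aa (j : ℕ) : ℕ := if j = 0 then 5 else if j = 1 then 7 else if j = 2 then 9 else 11

/-- the wrap starts -/
def ss (j : ℕ) : ℕ := if j = 0 then 0 else if j = 1 then 5 else if j = 2 then 12 else 21

/-- the corner shift with its wraps, weights `w` -/
noncomputable def Tower.zeta (T : Tower M τ) (k : ℕ) (w : ℕ → ℂ) : H →L[ℂ] H :=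
  (∑ t ∈ Finset.range 31, T.phi k (t + 1) t) +
    ∑ j ∈ Finset.range 4, w j • (T.phi k (ss j) (ss j + aa j - 1) * T.xx k j)

/-- the 64 shift -/
noncomputable def Tower.J64 (T : Tower M τ) (k : ℕ) : H →L[ℂ] H :=
  ∑ p ∈ Finset.range 63, T.f k (p + 1) p

end defs

/-- [ALG] (helper728) -/
def St_ALG : Prop :=
  ∀ (H : Type) [NormedAddCommGroup H] [InnerProductSpace ℂ H] [CompleteSpace H]
    (M : VonNeumannAlgebra H) (τ : (H →L[ℂ] H) →ₗ[ℂ] ℂ) (T : Tower M τ) (k : ℕ) (w : ℕ → ℂ),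
    (∀ j < 4, w j ≠ 0) →
    ∃ Y Yi, Y ∈ T.B (k + 1) ∧ Yi ∈ T.B (k + 1) ∧ Y * Yi = 1 ∧ Yi * Y = 1 ∧
      T.Jn k + T.e k 0 (64 ^ k - 1) * T.zeta k w = Y * T.Jn (k + 1) * Yi

/-- [STEP] (helper209, from ALG) -/
def St_STEP : Prop :=
  ∀ (H : Type) [NormedAddCommGroup H] [InnerProductSpace ℂ H] [CompleteSpace H]
    (M : VonNeumannAlgebra H) (τ : (H →L[ℂ] H) →ₗ[ℂ] ℂ) (T : Tower M τ)
    (Φ : ℕ → (H →L[ℂ] H) → (H →L[ℂ] H) → ℝ), (∀ k S Si, 0 < Φ k S Si) →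
    ∀ k S Si, S ∈ T.B k → Si ∈ T.B k → S * Si = 1 → Si * S = 1 → ∀ ε : ℝ, 0 < ε →
    ∃ S' Si', S' ∈ T.B (k + 1) ∧ Si' ∈ T.B (k + 1) ∧ S' * Si' = 1 ∧ Si' * S' = 1 ∧
      ‖S' * T.Jn (k + 1) * Si' - S * T.Jn k * Si‖ ≤ ε ∧
      ∃ S1 S1i, T.Adm k S1 S1i ∧ ∃ ρ : ℝ, 0 < ρ ∧ ∀ A,
        ‖A - S' * T.Jn (k + 1) * Si'‖ ≤ ρ →
        ∀ K, IsStarProjection K → A * K = K * A * K →
        ∀ y ∈ T.Y k, ‖(1 - K) * (S1 * y * S1i) * K‖ ≤ Φ k S1 S1i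

end Pool.Agent.H98R2.RR
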